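import Mathlib
import Pool.Agent.H74.FAC.Surf
import Pool.Agent.FPX.SQU
import Pool.Agent.FPX.C2a
import Pool.Agent.FPX.C2b
import Pool.Agent.FPX.C2c
import Pool.Agent.FPX.C2d
import Pool.Agent.FPX.C2e
import Pool.Agent.FPX.C2f
import Pool.Agent.FPX.C2g
import Pool.Agent.FPX.C2h

open Manifold
open scoped ENNReal

namespace Pool.Agent.Results.MP_ecf18f_gt.AreaLower

open Pool.Agent.H74.Surf Pool.Agent.FPX Pool.Agent.FPX.SQU

/-- the eight classes and the latitudes up to which each one is used -/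
def cls : List Cl :=
  [⟨1 / 1, 207 / 5000, 280001 / 1000000⟩, ⟨24 / 25, 377 / 10000, 414609 / 1000000⟩,
   ⟨91 / 100, 21 / 625, 526783 / 1000000⟩, ⟨17 / 20, 73 / 2500, 638044 / 1000000⟩,
   ⟨77 / 100, 231 / 10000, 723810 / 1000000⟩, ⟨69 / 100, 91 / 5000, 835165 / 1000000⟩,
   ⟨11 / 20, 23 / 2000, 929032 / 1000000⟩, ⟨37 / 100, 27 / 5000, 0⟩]

theorem cert : ∀ j < cls.length,
    SQX.CertW ((cl cls j).s : ℝ) ((cl cls j).om : ℝ) ((9 / 200 : ℚ) : ℝ) := by
  intro j hj
  change j < 8 at hj
  interval_cases j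
  · exact C2a.cert
  · exact C2b.cert
  · exact C2c.cert
  · exact C2d.cert
  · exact C2e.cert
  · exact C2f.cert
  · exact C2g.cert
  · exact C2h.cert

/-- Every compact orientable smooth Riemannian surface `M` with boundary (with its path metric)
that isometrically fills the circle of length `2π` has area at least `1.9416 · π`. -/
theorem result (M : Type) [MetricSpace M] [CompactSpace M] [ChartedSpace (EuclideanHalfSpace 2) M]
    [RiemannianSpace (𝓡∂ 2) M] (horient : Orientable (𝓡∂ 2) M)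
    (φ : S1 → M) (hφ : IsometricFilling (𝓡∂ 2) φ) :
    ENNReal.ofReal (1.9416 * Real.pi) ≤ area M := by
  have h := surf (l := cls) (δ := 1 / 1000000) (oz := 9 / 200) (c₁ := 19 / 20) (v := 9708 / 10000)
    (by decide +kernel) (by decide +kernel) cert M horient φ hφ
  refine le_trans (ENNReal.ofReal_le_ofReal (le_of_eq ?_)) h
  push_cast
  ring

end Pool.Agent.Results.MP_ecf18f_gt.AreaLower
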