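import Mathlib
import Pool.Agent.H74.FAC.Surf
import Pool.Agent.TRG.FIN

open Set Filter Topology Manifold
open scoped ENNReal NNReal ContDiff

namespace Pool.Agent.Results.MP_ecf18f_gt.CyclicTrigonal

open Pool.Agent.H74.Surf

/-- `r` is a conformal automorphism of order 3 of the surface `M` that rotates the boundary through
`2π/3`: a smooth map with `r (r (r x)) = x` for which the ratio of the distances
`dist (r x) (r y)` and `dist x y` has a limit when `y` tends to `x`, at every point `x`. -/
structure ConformalRotation {M : Type} [MetricSpace M] [ChartedSpace (EuclideanHalfSpace 2) M]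
    (φ : S1 → M) (r : M → M) : Prop where
  smooth : ContMDiff (𝓡∂ 2) (𝓡∂ 2) ∞ r
  cube : ∀ x, r (r (r x)) = x
  conformal : ∀ x, ∃ u : ℝ, Tendsto (fun y => dist (r x) (r y) / dist x y) (𝓝[≠] x) (𝓝 u)
  bdry : ∀ t : ℝ, r (φ (t : ℝ)) = φ ((t + 2 * Real.pi / 3 : ℝ))

/-- The quotient of `M` by the group generated by `r` is a disc. The continuous map `Pi` from `M`
onto the closed unit disc has the orbits of `r` as its fibres, and maps `φ t` to `exp (3 i t)`. The
finite set `P` of points of the open disc consists of the images of the fixed points of `r`. The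
parametrisation of the quotient by the disc is Lipschitz for the distance of orbits, and `Pi` has
smooth local sections outside `P`. -/
structure DiscQuotient {M : Type} [MetricSpace M] [ChartedSpace (EuclideanHalfSpace 2) M]
    (φ : S1 → M) (r : M → M) (P : Finset ℂ) (Pi : M → ℂ) : Prop where
  continuous : Continuous Pi
  range_eq : range Pi = {z | ‖z‖ ≤ 1}
  fibre : ∀ x y, Pi x = Pi y ↔ (y = x ∨ y = r x ∨ y = r (r x))
  bdry : ∀ t : ℝ, Pi (φ (t : ℝ)) = Complex.exp (3 * t * Complex.I)
  inner : ∀ p ∈ P, ‖p‖ < 1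
  fixed : ∀ x, r x = x ↔ Pi x ∈ P
  lipschitz : ∃ K : ℝ, ∀ x y, ∃ z, Pi z = Pi y ∧ dist x z ≤ K * ‖Pi x - Pi y‖
  sections : ∀ z : ℂ, ‖z‖ < 1 → z ∉ P →
    ∃ Ψ : ℂ → M, ∀ᶠ w in 𝓝 z, ContMDiffAt 𝓘(ℝ, ℂ) (𝓡∂ 2) ∞ Ψ w ∧ Pi (Ψ w) = w

/-- **Gromov's filling area conjecture, in every genus, for the cyclic threefold covers of the
disc.** Let `M` be a compact smooth Riemannian surface that isometrically fills the circle of
length `2π` by `φ`. Suppose that `M` has a conformal automorphism `r` of order 3 (for instance an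
isometric one) that rotates the boundary through `2π/3`, and that the quotient of `M` by `r` is a
disc. Then the area of `M` is at least `2π`. (If `r` has `k` fixed points then `M` has genus
`k - 1`.) -/
theorem result (M : Type) [MetricSpace M] [CompactSpace M] [ChartedSpace (EuclideanHalfSpace 2) M]
    [RiemannianSpace (𝓡∂ 2) M] (φ : S1 → M) (hφ : IsometricFilling (𝓡∂ 2) φ)
    (r : M → M) (hr : ConformalRotation φ r) (P : Finset ℂ) (Pi : M → ℂ)
    (h : DiscQuotient φ r P Pi) : ENNReal.ofReal (2 * Real.pi) ≤ area M :=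
  Pool.Agent.TRG.trigonal (M := M) hφ (r := r) (P := P) (Pi := Pi)
    ⟨hr.smooth, hr.cube, hr.conformal, hr.bdry⟩
    ⟨h.continuous, h.range_eq, h.fibre, h.bdry, h.inner, h.fixed, h.lipschitz, h.sections⟩

end Pool.Agent.Results.MP_ecf18f_gt.CyclicTrigonal
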