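import Mathlib
import Pool.Agent.H74.FAC.Surf
import Pool.Agent.MIR.Final

open Set Filter Topology Manifold
open scoped ENNReal NNReal ContDiff

namespace Pool.Agent.Results.MP_ecf18f_gt.MirrorPlanar

open Pool.Agent.H74.Surf

/-- The closed upper half disc minus the open discs with centres `c j` and radii `r j`. -/
def HalfDisc {k : ℕ} (c : Fin k → ℂ) (r : Fin k → ℝ) : Set ℂ :=
  {z | ‖z‖ ≤ 1 ∧ 0 ≤ z.im ∧ ∀ j, r j ≤ ‖z - c j‖}

/-- The part of the boundary of `HalfDisc c r` formed by the real segment `[-1, 1]` and the boundary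
circles of the holes. -/
def Mirror {k : ℕ} (c : Fin k → ℂ) (r : Fin k → ℝ) : Set ℂ :=
  {z | z ∈ HalfDisc c r ∧ (z.im = 0 ∨ ∃ j, ‖z - c j‖ = r j)}

/-- `ρ` is a conformal reflection of the surface `M` that acts on the boundary by
`φ t ↦ φ (-t)`: a smooth involution for which the ratio of the distances `dist (ρ x) (ρ y)` and
`dist x y` has a limit when `y` tends to `x`, at every point `x`. -/
structure ConformalReflection {M : Type} [MetricSpace M] [ChartedSpace (EuclideanHalfSpace 2) M]
    (φ : S1 → M) (ρ : M → M) : Prop where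
  smooth : ContMDiff (𝓡∂ 2) (𝓡∂ 2) ∞ ρ
  invol : ∀ x, ρ (ρ x) = x
  conformal : ∀ x, ∃ u : ℝ, Tendsto (fun y => dist (ρ x) (ρ y) / dist x y) (𝓝[≠] x) (𝓝 u)
  bdry : ∀ t, ρ (φ t) = φ (-t)

/-- The half of `M` bounded by the half circle `φ t`, `0 ≤ t ≤ π`, and by the mirror (fixed points
of `ρ`) is planar: it is the image of a closed upper half disc with `k` round holes under a
parametrisation `Ψ`, so that `M` is the union of this half and of its image under `ρ`, which meet
only along the mirror. The closed discs removed are pairwise disjoint and lie in the open upper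
half disc; `Ψ` is injective and Lipschitz, and smooth in the interior. -/
structure PlanarHalf {M : Type} [MetricSpace M] [ChartedSpace (EuclideanHalfSpace 2) M]
    (φ : S1 → M) (ρ : M → M) {k : ℕ} (c : Fin k → ℂ) (r : Fin k → ℝ) (Ψ : ℂ → M) : Prop where
  pos : ∀ j, 0 < r j
  inside : ∀ j, ‖c j‖ + r j < 1
  above : ∀ j, r j < (c j).im
  disjoint : ∀ i j, i ≠ j → r i + r j < ‖c i - c j‖
  lipschitz : ∃ K : ℝ≥0, LipschitzOnWith K Ψ (HalfDisc c r)
  smooth : ContMDiffOn 𝓘(ℝ, ℂ) (𝓡∂ 2) ∞ Ψ (interior (HalfDisc c r))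
  injective : InjOn Ψ (HalfDisc c r)
  bdry : ∀ t ∈ Icc 0 Real.pi, Ψ (Complex.exp (t * Complex.I)) = φ (t : ℝ)
  mirror : ∀ z ∈ Mirror c r, ρ (Ψ z) = Ψ z
  only_mirror : ∀ z ∈ HalfDisc c r, ∀ w ∈ HalfDisc c r, ρ (Ψ z) = Ψ w → z ∈ Mirror c r
  cover : ∀ x, ∃ z ∈ HalfDisc c r, Ψ z = x ∨ ρ (Ψ z) = x

/-- **Gromov's filling area conjecture, in every genus, for the fillings with a conformal
reflection and planar halves.** Let `M` be a compact smooth Riemannian surface that isometrically
fills the circle of length `2π` by `φ`. Suppose that `M` has a conformal reflection `ρ` (for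
instance an isometric one) that acts on the boundary by `φ t ↦ φ (-t)`, and that the half of `M`
is planar. Then the area of `M` is at least `2π`. (If the half has `k` holes, then the genus of `M`
is `k`.) -/
theorem result (M : Type) [MetricSpace M] [CompactSpace M] [ChartedSpace (EuclideanHalfSpace 2) M]
    [RiemannianSpace (𝓡∂ 2) M] (φ : S1 → M) (hφ : IsometricFilling (𝓡∂ 2) φ)
    (ρ : M → M) (hρ : ConformalReflection φ ρ)
    (k : ℕ) (c : Fin k → ℂ) (r : Fin k → ℝ) (Ψ : ℂ → M) (h : PlanarHalf φ ρ c r Ψ) :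
    ENNReal.ofReal (2 * Real.pi) ≤ area M :=
  Pool.Agent.MIR.mirror_planar (M := M) hφ (ρ := ρ) ⟨hρ.smooth, hρ.invol, hρ.conformal, hρ.bdry⟩
    (c := c) (r := r) (Ψ := Ψ)
    ⟨⟨h.pos, h.inside, h.above, h.disjoint⟩, h.lipschitz, h.smooth, h.injective, h.bdry, h.mirror,
      h.only_mirror, h.cover⟩

end Pool.Agent.Results.MP_ecf18f_gt.MirrorPlanar
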