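import Mathlib
import Pool.Agent.H74.FAC.Surf
import Pool.Agent.EWD.MFL

open MeasureTheory Set Filter Topology Manifold
open scoped ENNReal NNReal ContDiff

noncomputable section

namespace Pool.Agent.Results.MP_ecf18f_gt.NearMinimizers

open Pool.Agent.H74.Surf

/-- The energy density of the map `w` in the chart `e`, with respect to the Lebesgue measure of the
coordinates: half of `∑ᵢⱼ gⁱʲ ⟨∂ᵢ w, ∂ⱼ w⟩ √(det g)`, where `g` is the matrix of the Riemannian
metric and `gⁱʲ` its inverse, that is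
`(g₁₁ |∂₀ w|² - 2 g₀₁ ⟨∂₀ w, ∂₁ w⟩ + g₀₀ |∂₁ w|²) / (2 √(det g))`. -/
def density {M : Type} [MetricSpace M] [ChartedSpace (EuclideanHalfSpace 2) M]
    [RiemannianSpace (𝓡∂ 2) M] {N : ℕ} (e : OpenPartialHomeomorph M (EuclideanHalfSpace 2))
    (w : M → EuclideanSpace ℝ (Fin N)) (z : EuclideanSpace ℝ (Fin 2)) : ℝ :=
  (1 / 2) * ((gram (𝓡∂ 2) (fun i : Fin 2 => EuclideanSpace.single i (1 : ℝ)) e z 1 1 *
      ‖fderiv ℝ (fun y => w ((e.extend (𝓡∂ 2)).symm y)) z (EuclideanSpace.single 0 1)‖ ^ 2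
    - 2 * gram (𝓡∂ 2) (fun i : Fin 2 => EuclideanSpace.single i (1 : ℝ)) e z 0 1 *
      inner ℝ (fderiv ℝ (fun y => w ((e.extend (𝓡∂ 2)).symm y)) z (EuclideanSpace.single 0 1))
        (fderiv ℝ (fun y => w ((e.extend (𝓡∂ 2)).symm y)) z (EuclideanSpace.single 1 1))
    + gram (𝓡∂ 2) (fun i : Fin 2 => EuclideanSpace.single i (1 : ℝ)) e z 0 0 *
      ‖fderiv ℝ (fun y => w ((e.extend (𝓡∂ 2)).symm y)) z (EuclideanSpace.single 1 1)‖ ^ 2)
    / √(gram (𝓡∂ 2) (fun i : Fin 2 => EuclideanSpace.single i (1 : ℝ)) e z).det)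

/-- The Dirichlet energy `½ ∫ |dw|²` of a map of the surface `M` into a Euclidean space: the
supremum, over all finite families of smooth charts `eᵢ` and pairwise disjoint Borel sets `Sᵢ`
contained in the domains of the `eᵢ`, of the sum of the integrals of the energy densities over the
sets `eᵢ(Sᵢ)`. -/
def energy {M : Type} [MetricSpace M] [ChartedSpace (EuclideanHalfSpace 2) M]
    [RiemannianSpace (𝓡∂ 2) M] {N : ℕ} (w : M → EuclideanSpace ℝ (Fin N)) : ℝ≥0∞ :=
  ⨆ (n : ℕ) (e : Fin n → OpenPartialHomeomorph M (EuclideanHalfSpace 2)) (S : Fin n → Set M)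
    (_ : (∀ i, e i ∈ IsManifold.maximalAtlas (𝓡∂ 2) ∞ M) ∧
      (∀ i, MeasurableSet[borel M] (S i)) ∧ (∀ i, S i ⊆ (e i).source) ∧
      Pairwise fun i j => Disjoint (S i) (S j)),
    ∑ i, ∫⁻ z in (e i).extend (𝓡∂ 2) '' (S i), ENNReal.ofReal (density (e i) w z)

/-- `u` is a Lipschitz map of `M` into the unit sphere of `ℝᴺ` that takes opposite values at opposite
points of the boundary circle. -/
structure OddMap {M : Type} [MetricSpace M] (φ : S1 → M) {N : ℕ}
    (u : M → EuclideanSpace ℝ (Fin N)) : Prop where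
  lipschitz : ∃ L : ℝ≥0, LipschitzWith L u
  sphere : ∀ x, ‖u x‖ = 1
  odd : ∀ t : ℝ, u (φ ((t + Real.pi : ℝ) : S1)) = -u (φ (t : S1))

/-- **Filling area and energy minimising maps into spheres.** Let `M` be a compact orientable smooth
Riemannian surface that isometrically fills the circle of length `2π` by `φ`, of any genus. Suppose
that for every `δ > 0` there is an odd map `u` of `M` into the unit sphere of `ℝⁿ⁺³` whose energy
exceeds by at most `δ` the energy of every odd map `w` into the unit sphere of `ℝⁿ⁺⁴` that is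
`ρ`-close to `u`, and that has distance at least `m` from the subspace `x₀ = x₁ = x₂ = 0` (the
energies of these maps `u` being bounded, and `ρ` and `m` independent of `δ`). Then the area of `M`
is at least `2π m`. In particular (`n = 0`, `m = 1`), if the infimum of the energy of odd maps is the
same for the spheres `S²` and `S³`, or if some odd map into `S²` has the least energy among all
nearby odd maps into `S³`, then the area of `M` is at least `2π`. -/
theorem result (M : Type) [MetricSpace M] [CompactSpace M] [ChartedSpace (EuclideanHalfSpace 2) M]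
    [RiemannianSpace (𝓡∂ 2) M] (horient : Orientable (𝓡∂ 2) M)
    (φ : S1 → M) (hφ : IsometricFilling (𝓡∂ 2) φ) (n : ℕ) (m ρ B : ℝ) (hm : 0 < m) (hρ : 0 < ρ)
    (H : ∀ δ : ℝ, 0 < δ → ∃ u : M → EuclideanSpace ℝ (Fin (n + 3)), OddMap φ u ∧
      (∀ x, m ≤ √(u x 0 ^ 2 + u x 1 ^ 2 + u x 2 ^ 2)) ∧ energy u ≤ ENNReal.ofReal B ∧
      ∀ w : M → EuclideanSpace ℝ (Fin (n + 4)), OddMap φ w →
        (∀ x (i : Fin (n + 3)), |w x i.castSucc - u x i| ≤ ρ) →
        energy u ≤ energy w + ENNReal.ofReal δ) :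
    ENNReal.ofReal (2 * Real.pi * m) ≤ area M :=
  letI R : RiemannianSpace (𝓡∂ 2) M := inferInstance
  letI := R.smooth
  letI := R.metric
  letI := R.smoothMetric
  letI := R.dist_eq
  Pool.Agent.EWD.main_lip (M := M) horient (φ := φ) ⟨hφ.dist_eq, hφ.range_eq⟩ (n := n) (m := m)
    (ρ := ρ) (B := B) hm hρ (fun δ hδ => by
      obtain ⟨u, h1, h2, h3, h4⟩ := H δ hδ
      exact ⟨u, h1.lipschitz, h1.sphere, h1.odd, h2, h3, fun w a b c => h4 w ⟨a, b, c⟩⟩)

end Pool.Agent.Results.MP_ecf18f_gt.NearMinimizers
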