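import Mathlib
import Pool.Agent.H74.FAC.Surf
import Pool.Agent.H18.Col.Final

open Manifold
open scoped ENNReal

namespace Pool.Agent.Results.MP_ecf18f_gt.RoundCollar

open Pool.Agent.H74.Surf

/-- The closed collar of width `π/4` about the boundary of the upper hemisphere of the unit sphere
in `ℝ³`: the points of the unit sphere whose latitude is between `0` and `π/4`. -/
def Collar : Set (EuclideanSpace ℝ (Fin 3)) :=
  {y | ‖y‖ = 1 ∧ 0 ≤ y 2 ∧ y 2 ≤ Real.sqrt 2 / 2}

/-- **Sharp area bound, in every genus, for isometric fillings with a large round collar.**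
Let `M` be a compact orientable smooth Riemannian surface that isometrically fills the circle of
length `2π` by `φ`. Suppose that `φ` extends to a map `Ψ` (not assumed to be continuous) from the
collar of width `π/4` of the unit round hemisphere into `M` that does not decrease distances, for
the angular distance of the round sphere on the collar and the distance of `M`. Then the area of
`M` is at least `2π`. -/
theorem result (M : Type) [MetricSpace M] [CompactSpace M] [ChartedSpace (EuclideanHalfSpace 2) M]
    [RiemannianSpace (𝓡∂ 2) M] (horient : Orientable (𝓡∂ 2) M)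
    (φ : S1 → M) (hφ : IsometricFilling (𝓡∂ 2) φ)
    (Ψ : Collar → M)
    (hbdry : ∀ (t : ℝ) (y : Collar),
      (y : EuclideanSpace ℝ (Fin 3)) = !₂[Real.cos t, Real.sin t, 0] → Ψ y = φ (t : S1))
    (hfar : ∀ y z : Collar, InnerProductGeometry.angle (y : EuclideanSpace ℝ (Fin 3))
      (z : EuclideanSpace ℝ (Fin 3)) ≤ dist (Ψ y) (Ψ z)) :
    ENNReal.ofReal (2 * Real.pi) ≤ area M :=
  letI R : RiemannianSpace (𝓡∂ 2) M := inferInstance
  letI := R.smooth
  letI := R.metric
  letI := R.smoothMetric
  letI := R.dist_eq
  Pool.Agent.H18.Col.collar_area (M := M) horient (φ := φ) ⟨hφ.dist_eq, hφ.range_eq⟩ (Ψ := Ψ)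
    hfar (fun t => hbdry t _ rfl)

end Pool.Agent.Results.MP_ecf18f_gt.RoundCollar
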