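import Mathlib
import Pool.Agent.H74.FAC.Surf
import Pool.Agent.H70.SO.Data

open Manifold MeasureTheory
open scoped ENNReal

namespace Pool.Agent.Results.MP_ecf18f_gt.SlitOpen

open Pool.Agent.H74.Surf Pool.Agent.H70.SD Pool.Agent.H70.SO

/-- **Filling area inequality for the conformal types near those of circular slit discs (every
genus).** Let `M` be a compact smooth Riemannian surface that isometrically fills the circle of
length `2π` by `φ`, and let `D` be the double of `M`: two copies of `M`, the boundary point `φ t` of
one being glued to the boundary point `φ (t + π)` of the other, with its antipodal map `flip` that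
exchanges the copies. Suppose that the unit disc minus a set `S` of circular slits (`S` lies on
finitely many circles `‖z‖ = ρ`, `r ≤ ρ < 1`, and contains the points of the circle `‖z‖ = r` with
arguments between `a` and `b`) is mapped to `D` by `F`, continuously up to the boundary and with
stretching factor `lam`, so that the boundary values at the points `z` and `-z` of the unit circle,
and on either side of the slits, are antipodal, or at least at distance `≥ π`. If the integral of
`lam ^ 2` is at most `(1 + gain r (b - a)) * area M` (for instance if `F` is a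
`(1 + gain r (b - a))`-quasiconformal map onto a fundamental domain of the antipodal map), then the
area of `M` is at least `2π`. -/
theorem result (M : Type) [MetricSpace M] [CompactSpace M] [ChartedSpace (EuclideanHalfSpace 2) M]
    [RiemannianSpace (𝓡∂ 2) M] (φ : S1 → M) (hφ : IsometricFilling (𝓡∂ 2) φ)
    (S : Set ℂ) (F : ℂ → M × Bool) (lam : ℂ → ℝ≥0∞) (h : SlitDisc φ S F lam)
    (r a b : ℝ) (hr : 0 < r) (hr1 : r < 1) (hmin : ∀ z ∈ S, r ≤ ‖z‖) (hab : a ≤ b)
    (hb : b ≤ a + Real.pi)
    (harc : ∀ w ∈ Set.Ioo a b, (r : ℂ) * Complex.exp (w * Complex.I) ∈ S)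
    (harea : ∫⁻ z in Metric.ball (0 : ℂ) 1, lam z ^ 2 ≤
      ENNReal.ofReal (1 + gain r (b - a)) * area M) :
    ENNReal.ofReal (2 * Real.pi) ≤ area M := by
  obtain ⟨inn, out, hd⟩ := slit_data hφ.dist_eq h
  have h1 := (@slit_open' (DT M) (dblMetric hφ.dist_eq) S _ inn out lam hd r a b hr hr1 hab hb hmin
    harc).trans harea
  have hpi := Real.pi_pos
  have hg : 0 ≤ gain r (b - a) := by
    unfold gain
    have : 0 ≤ b - a := by linarith
    positivity
  refine (ENNReal.mul_le_mul_iff_right ?_ ?_).1 h1
  · rw [ne_eq, ENNReal.ofReal_eq_zero, not_le]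
    linarith
  · exact ENNReal.ofReal_ne_top

end Pool.Agent.Results.MP_ecf18f_gt.SlitOpen
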