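import Mathlib
import Pool.Agent.H74.FAC.Surf
import Pool.Agent.EWD.TMF

open Set Filter Topology Manifold
open scoped ENNReal NNReal ContDiff

namespace Pool.Agent.Results.MP_ecf18f_gt.TwoReflections

open Pool.Agent.H74.Surf

/-- `σ` is a conformal involution of the surface `M`: it is smooth, `σ ∘ σ = id`, and the ratio of
the distances `dist (σ x) (σ y)` and `dist x y` has a limit when `y` tends to `x`, at every point
`x`. For instance `σ` may be an isometry. -/
structure ConformalInvolution {M : Type} [MetricSpace M] [ChartedSpace (EuclideanHalfSpace 2) M]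
    (σ : M → M) : Prop where
  smooth : ContMDiff (𝓡∂ 2) (𝓡∂ 2) ∞ σ
  invol : ∀ x, σ (σ x) = x
  conformal : ∀ x, ∃ u : ℝ, Tendsto (fun y => dist (σ x) (σ y) / dist x y) (𝓝[≠] x) (𝓝 u)

/-- The closed set `P` is a half of `M` for the involution `σ`: `M` is the union of `P` and `σ(P)`,
which meet only in fixed points of `σ`. -/
structure Half {M : Type} [MetricSpace M] (σ : M → M) (P : Set M) : Prop where
  closed : IsClosed P
  cover : ∀ x, x ∈ P ∨ σ x ∈ P
  meet : ∀ x, x ∈ P → σ x ∈ P → σ x = x

/-- **Gromov's filling area conjecture, in every genus, for the fillings with two commuting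
dividing reflections.** Let `M` be a compact orientable smooth Riemannian surface that isometrically
fills the circle of length `2π` by `φ`. Suppose that `M` has two commuting conformal involutions
`σ` and `τ` (for instance isometric ones) whose product acts on the boundary as the antipodal map
`φ t ↦ φ (t + π)`, and that both are dividing: `M` is the union of a closed set `P` and of `σ(P)`,
which meet only in fixed points of `σ`, and likewise for `τ`. Then the area of `M` is at least
`2π`. Nothing is assumed about the topology of `M` or of the halves. -/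
theorem result (M : Type) [MetricSpace M] [CompactSpace M] [ChartedSpace (EuclideanHalfSpace 2) M]
    [RiemannianSpace (𝓡∂ 2) M] (horient : Orientable (𝓡∂ 2) M)
    (φ : S1 → M) (hφ : IsometricFilling (𝓡∂ 2) φ)
    (σ τ : M → M) (hσ : ConformalInvolution σ) (hτ : ConformalInvolution τ)
    (hcomm : ∀ x, σ (τ x) = τ (σ x))
    (hanti : ∀ t : ℝ, σ (τ (φ (t : S1))) = φ ((t + Real.pi : ℝ) : S1))
    (P Q : Set M) (hP : Half σ P) (hQ : Half τ Q) :
    ENNReal.ofReal (2 * Real.pi) ≤ area M :=
  letI R : RiemannianSpace (𝓡∂ 2) M := inferInstance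
  letI := R.smooth
  letI := R.metric
  letI := R.smoothMetric
  letI := R.dist_eq
  Pool.Agent.EWD.two_reflections (M := M) horient (φ := φ) ⟨hφ.dist_eq, hφ.range_eq⟩
    hσ.smooth hτ.smooth hσ.invol hτ.invol hσ.conformal hτ.conformal hcomm hanti
    hP.closed hP.cover hP.meet hQ.closed hQ.cover hQ.meet

end Pool.Agent.Results.MP_ecf18f_gt.TwoReflections
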